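import Mathlib
import Pool.Agent.Work.MP_500150_lc.H8.Maj
import Pool.Agent.Work.MP_500150_lc.H8.Sep

set_option autoImplicit false

/-!
# What is enough for the computability of the Mandelbrot set

The Mandelbrot set `M` is computable if and only if there is some computably enumerable set of
squares between the set of the squares inside `M` and the set of the squares which meet `M`, and if
and only if pictures can be computed in which every block of a given size contains more right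
pixels than wrong pixels.
-/

namespace Pool.Agent.Results.MP_500150_lc.Sandwich

/-- The Mandelbrot set. -/
def M : Set ℂ := {c : ℂ | ∀ i : ℕ, ‖(fun z : ℂ => z ^ 2 + c)^[i] 0‖ ≤ 2}

/-- The distance to the Mandelbrot set. -/
noncomputable def d (c : ℂ) : ℝ := Metric.infDist c M

/-- The distance function of the Mandelbrot set is computable. -/
def ComputableM : Prop :=
  ∃ f : ℕ × ℕ × ℕ × ℕ × ℕ → ℕ × ℕ, Computable f ∧ ∀ a b p q n : ℕ,
    |(((f (a, b, p, q, n)).1 : ℝ) - ((f (a, b, p, q, n)).2 : ℝ)) / 2 ^ n -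
      d (Complex.mk (((a : ℝ) - (b : ℝ)) / 2 ^ n) (((p : ℝ) - (q : ℝ)) / 2 ^ n))| ≤ 1 / 2 ^ n

/-- The closed dyadic square `[x / 2 ^ n - 4, (x + 1) / 2 ^ n - 4] ×
[y / 2 ^ n - 4, (y + 1) / 2 ^ n - 4]`. -/
def Square (n x y : ℕ) : Set ℂ :=
  {c : ℂ | (x : ℝ) / 2 ^ n - 4 ≤ c.re ∧ c.re ≤ ((x : ℝ) + 1) / 2 ^ n - 4 ∧
    (y : ℝ) / 2 ^ n - 4 ≤ c.im ∧ c.im ≤ ((y : ℝ) + 1) / 2 ^ n - 4}

/-- The pixel `(x, y)` of level `n`: the lower left corner of `Square n x y`. -/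
noncomputable def pixel (n x y : ℕ) : ℂ :=
  Complex.mk (((x : ℝ) - 4 * 2 ^ n) / 2 ^ n) (((y : ℝ) - 4 * 2 ^ n) / 2 ^ n)

/-- The pixel `(x, y)` is wrong in the picture `f (·, ·, n)` of level `n`. -/
def Wrong (f : ℕ × ℕ × ℕ → ℕ) (n x y : ℕ) : Prop :=
  (d (pixel n x y) < 1 / 2 ^ n ∧ f (x, y, n) ≠ 0) ∨
    (2 / 2 ^ n < d (pixel n x y) ∧ f (x, y, n) ≠ 1)

open Classical in
/-- The number of the wrong pixels of level `n` in the block `Square k X Y`; it has
`4 ^ (n - k)` pixels of level `n`. -/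
noncomputable def wrong (f : ℕ × ℕ × ℕ → ℕ) (n k X Y : ℕ) : ℕ :=
  ((Finset.range (2 ^ (n - k)) ×ˢ Finset.range (2 ^ (n - k))).filter
    (fun q => Wrong f n (X * 2 ^ (n - k) + q.1) (Y * 2 ^ (n - k) + q.2))).card

theorem result : List.TFAE [
    ComputableM,
    ∃ A : ℕ × ℕ × ℕ → Prop, REPred A ∧ (∀ n x y, Square n x y ⊆ M → A (x, y, n)) ∧
      (∀ n x y, A (x, y, n) → (Square n x y ∩ M).Nonempty),
    ∃ (f : ℕ × ℕ × ℕ → ℕ) (ρ : ℕ → ℕ), Computable f ∧ Computable ρ ∧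
      ∀ k : ℕ, k ≤ ρ k ∧ ∀ X < 8 * 2 ^ k, ∀ Y < 8 * 2 ^ k,
        2 * wrong f (ρ k) k X Y < 4 ^ (ρ k - k)] := by
  have hw : ∀ (f : ℕ × ℕ × ℕ → ℕ) (n k X Y : ℕ),
      wrong f n k X Y = (Pool.MP_500150_lc.H8.wrongsIn f n k X Y).card := by
    intro f n k X Y
    classical
    unfold wrong Pool.MP_500150_lc.H8.wrongsIn
    congr 1
    ext q
    simp only [Finset.mem_filter]
    unfold Pool.MP_500150_lc.H8.Wrong Wrong pixel
    rw [Pool.MP_500150_lc.H8.pt_gq]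
    rfl
  tfae_have 1 → 2 := by
    intro h
    obtain ⟨p, hp, h1, h2⟩ := Pool.MP_500150_lc.H8.sep_of_comp h
    exact ⟨p, hp.to_re, h1, h2⟩
  tfae_have 2 → 1 := by
    rintro ⟨p, hp, h1, h2⟩
    exact Pool.MP_500150_lc.H8.comp_of_sep hp h1 h2
  tfae_have 1 ↔ 3 := by
    simp only [hw]
    exact Pool.MP_500150_lc.H8.comp_iff_maj
  tfae_finish

end Pool.Agent.Results.MP_500150_lc.Sandwich
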