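import Pool.Agent.Work.MP_8a95ee_gt.Ref.All

/-!
# Gromov's question for the closed manifolds given by the reflection trick of Davis

Let `K` be a finite simplicial complex and `V` a nonempty set of vertices of `K`, such that the
full subcomplex `L` on `V` (the boundary of `K`) is flag and a closed real homology manifold of
dimension `m ≥ 1` with orientation `o`, and `o` bounds a chain `c` of `K`.  The reflection trick
glues `2 ^ |V|` copies of `K` along the dual cells of the vertices of `L` to a closed space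
`M = Mf K V`, which is an aspherical manifold if `K` is.  If the fundamental cycle `fundCh K V c` of
`M` has `l1`-seminorm zero, then for every covering `K'` of `K` with `d` sheets

`d * |χ(M)| ≤ 2 ^ |V| * (b(K') + b(L') + 1)`,

where `b` is the sum of the real Betti numbers and `L'` is the preimage of `L`.  In particular
`χ(M) = 0` if `K` has finite coverings for which the Betti numbers grow slower than the number of
sheets.
-/

set_option autoImplicit false

namespace Pool.Agent.Results.MP_8a95ee_gt.ReflectionManifolds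

open MP8a95ee MP8a95ee.Ref

/-- Vanishing simplicial volume implies vanishing Euler characteristic for the manifolds given by
the reflection trick over a piece with sublinear growth of Betti numbers. -/
theorem result (m : ℕ) (hm : 1 ≤ m) (K : Finset (Finset ℕ)) (hK : IsCx K) (V : Finset ℕ)
    (hV : V.Nonempty) (hVK : V ⊆ verts K) (hL : IsFlag (sub K V))
    (hM : IsHMfd (sub K V) (m + 1)) (o : (Fin (m + 1) → ℕ) → ℤ)
    (ho : IsOrient (sub K V) (m + 1) o) (c : (Fin (m + 2) → ℕ) → ℤ)
    (hc : IsRelCycle K (m + 1) o c) :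
    bd (fundCh K V c) = 0 ∧
    ((∀ ε : ℝ, 0 < ε → ∃ b : SChain (Mf K V) (m + 2), l1 (fundCh K V c + bd b) < ε) →
      (∀ (K' : Finset (Finset ℕ)) (π : ℕ → ℕ) (d : ℕ), 0 < d → IsCover K K' π d →
        (d : ℤ) * |chiM K V| ≤
          2 ^ V.card * ((betti K' : ℤ) + (betti (sub K' (pre K' π V)) : ℤ) + 1)) ∧
      ((∀ ε : ℝ, 0 < ε → ∃ (K' : Finset (Finset ℕ)) (π : ℕ → ℕ) (d : ℕ), 0 < d ∧
          IsCover K K' π d ∧
          (betti K' : ℝ) + (betti (sub K' (pre K' π V)) : ℝ) + 1 ≤ ε * d) →
        chiM K V = 0)) := by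
  obtain ⟨h1, h2⟩ := mainAll m hm K hK V hV hVK hL hM o ho c hc
  refine ⟨h1, fun hs => ⟨h2 hs, fun hg => ?_⟩⟩
  by_contra hne
  have h3 : (1 : ℝ) ≤ |(chiM K V : ℝ)| := by
    have h4 : (1 : ℤ) ≤ |chiM K V| := Int.one_le_abs hne
    exact_mod_cast h4
  obtain ⟨K', π, d, hd, hcov, hle⟩ := hg (1 / (2 * 2 ^ V.card)) (by positivity)
  have h5 := h2 hs K' π d hd hcov
  have h6 : (d : ℝ) * |(chiM K V : ℝ)| ≤
      2 ^ V.card * ((betti K' : ℝ) + (betti (sub K' (pre K' π V)) : ℝ) + 1) := by
    exact_mod_cast h5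
  have hd' : (0 : ℝ) < d := by exact_mod_cast hd
  have h7 : (2 : ℝ) ^ V.card * ((betti K' : ℝ) + (betti (sub K' (pre K' π V)) : ℝ) + 1) ≤
      2 ^ V.card * (1 / (2 * 2 ^ V.card) * d) := by
    exact mul_le_mul_of_nonneg_left hle (by positivity)
  have h8 : (2 : ℝ) ^ V.card * (1 / (2 * 2 ^ V.card) * d) = d / 2 := by
    field_simp
  nlinarith

end Pool.Agent.Results.MP_8a95ee_gt.ReflectionManifolds
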