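import Pool.Agent.Work.MP_8a95ee_gt.Bd.B01
import Pool.Agent.Work.MP_8a95ee_gt.A2
import Pool.Agent.Work.MP_8a95ee_gt.A3
import Pool.Agent.Work.MP_8a95ee_gt.A8
import Pool.Agent.Work.MP_8a95ee_gt.B6
import Pool.Agent.Work.MP_8a95ee_gt.C
import Pool.Agent.Work.MP_8a95ee_gt.D1
import Pool.Agent.Work.MP_8a95ee_gt.D2

/-!
# Gromov's question for the real moment-angle manifolds of 2-truncated cubes

Let `n = 2 k + 2` be even and let `L` be obtained from the boundary complex of the `n`-dimensional
cross-polytope by finitely many edge subdivisions.  The real moment-angle complex `RZ L` is a closed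
connected orientable aspherical `n`-manifold (Davis).  If its simplicial volume vanishes, that is,
if every real singular `n`-cycle of `RZ L` is homologous to cycles of arbitrarily small l1-norm,
then its Euler characteristic is zero.
-/

namespace MP8a95ee

theorem tc_facts {n : ℕ} {L : Finset (Finset ℕ)} (h : TCDual n L) :
    FlagC L ∧ (∀ σ ∈ L, σ.card ≤ n) ∧ (∃ o, IsOrient L n o) ∧ PropP n L := by
  induction h with
  | base => exact ⟨(flagC_cross n).1, (flagC_cross n).2, orient_cross n, propP_cross n⟩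
  | step L u v w hL huv he hw ih =>
    obtain ⟨hf, hd, ⟨o, ho⟩, hP⟩ := ih
    exact ⟨(flagC_subdiv hf hd huv he hw).1, (flagC_subdiv hf hd huv he hw).2,
      orient_subdiv hf hd huv he hw ho, propP_subdiv hf hd huv he hw hP⟩

theorem lk_empty {L : Finset (Finset ℕ)} : lk L ∅ = L := by
  unfold lk
  ext σ
  simp

end MP8a95ee

namespace Pool.Agent.Results.MP_8a95ee_gt.TruncatedCubes

open MP8a95ee

/-- Vanishing simplicial volume implies vanishing Euler characteristic for the real moment-angle
manifolds of all 2-truncated cubes of even dimension. -/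
theorem result (k : ℕ) (L : Finset (Finset ℕ)) (hL : TCDual (2 * k + 2) L)
    (hvol : ∀ z : SChain (RZ L) (2 * k + 2), bd z = 0 → ∀ ε : ℝ, 0 < ε →
      ∃ b : SChain (RZ L) (2 * k + 3), l1 (z + bd b) < ε) :
    eulerChar L = 0 := by
  obtain ⟨hf, hd, ⟨o, ho⟩, hP⟩ := tc_facts hL
  by_contra hne
  have hkap : kap L ≠ 0 := by
    intro h0
    have := eulerChar_eq L
    rw [h0, mul_zero] at this
    exact hne (by exact_mod_cast this)
  have hemp : (∅ : Finset ℕ) ∈ L := (hf ∅).2 (by simp)
  obtain ⟨φ, hφ⟩ := hP ∅ hemp (k + 1) (by simp; ring) (by rw [lk_empty]; exact hkap)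
  rw [lk_empty] at hφ
  obtain ⟨P⟩ := exists_pentData
  obtain ⟨K, hK⟩ := cupF_cocycle P (k + 1)
  obtain ⟨h1, h2, h3⟩ := refl_facts P L hf (k + 1) φ hφ
  have := topological L hf (n := 2 * k + 1) o ho (prodChi P (k + 1)) K (refl P φ)
    (fun i _ => h1 i) h2 h3 hvol
  refine evaluation P L hf (k + 1) o ho φ hφ ?_
  rw [← hK]
  exact this

end Pool.Agent.Results.MP_8a95ee_gt.TruncatedCubes
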