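import Pool.Agent.Work.MP_e17eac_co.Cut

/-!
# Lovász' lemma for convex sets

For a finite set `P` of an even number of points in general position and **any** convex set `K`,
at most `|P \ K|` of the halving lines of `P` have exactly one of their two points in `K`.
-/

namespace Pool.Agent.Results.MP_e17eac_co.ConvexCut

open Finset Pool.Agent.Work.MP_e17eac_co

/-- The halving lines of `P` that have exactly one of their two points of `P` in the set `K`. -/
def crossing (P : Finset (ℝ × ℝ)) (K : Set (ℝ × ℝ)) : Set (AffineSubspace ℝ (ℝ × ℝ)) :=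
  {l | ∃ p q, IsHalving P p q ∧ p ∈ K ∧ q ∉ K ∧ l = affineSpan ℝ {p, q}}

open Classical in
/-- **Lovász' lemma for convex sets.** Let `P` be a finite set of points of the plane in general
position with `|P|` even, and let `K` be any convex set. The number of halving lines of `P` with
exactly one of their two points in `K` is at most the number of points of `P` outside `K`. -/
theorem result (P : Finset (ℝ × ℝ)) (hgp : GeneralPosition P) (heven : Even P.card)
    (K : Set (ℝ × ℝ)) (hK : Convex ℝ K) :
    (crossing P K).Finite ∧ (crossing P K).ncard ≤ {p | p ∈ P ∧ p ∉ K}.ncard := by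
  set T : Finset ((ℝ × ℝ) × (ℝ × ℝ)) :=
    (P.filter (fun p => p ∈ K) ×ˢ P.filter (fun p => p ∉ K)).filter
      (fun x => IsHalving P x.1 x.2) with hT
  set F : (ℝ × ℝ) × (ℝ × ℝ) → AffineSubspace ℝ (ℝ × ℝ) := fun x => affineSpan ℝ {x.1, x.2} with hF
  have himg : crossing P K = (T.image F : Finset _) := by
    ext l
    simp only [crossing, Set.mem_ofPred_eq, Finset.coe_image, Set.mem_image, Finset.mem_coe, hT,
      Finset.mem_filter, Finset.mem_product, hF]
    constructor
    · rintro ⟨p, q, h, hp, hq, rfl⟩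
      exact ⟨(p, q), ⟨⟨⟨h.1, hp⟩, ⟨h.2.1, hq⟩⟩, h⟩, rfl⟩
    · rintro ⟨x, ⟨⟨⟨_, h1⟩, ⟨_, h2⟩⟩, h⟩, rfl⟩
      exact ⟨x.1, x.2, h, h1, h2, rfl⟩
  have hTcard : T.card =
      ∑ p ∈ P.filter (fun p => p ∈ K), hdeg P p (P.filter (fun p => p ∉ K)) := by
    rw [hT, Finset.card_filter, Finset.sum_product]
    refine Finset.sum_congr rfl fun p _ => ?_
    unfold hdeg
    rw [Finset.card_filter]
  rw [himg]
  refine ⟨Finset.finite_toSet _, ?_⟩
  rw [Set.ncard_coe_finset, ncard_eq_filter]
  calc (T.image F).card ≤ T.card := Finset.card_image_le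
    _ = _ := hTcard
    _ ≤ _ := convex_cut hgp heven hK

end Pool.Agent.Results.MP_e17eac_co.ConvexCut
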