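import Pool.Agent.Work.MP_e17eac_co.HLMain
import Pool.Agent.Work.MP_e17eac_co.HLUnit
import Pool.Agent.Work.MP_e17eac_co.HLSparse
import Pool.Agent.Work.MP_e17eac_co.HLPad
import Pool.Agent.Work.MP_e17eac_co.HLPoints
import Pool.Agent.Work.MP_e17eac_co.HLFinal

/-!
# A new lower bound for the maximum number of halving lines

There are a constant `c > 0` and an `n₀` such that for every even `n ≥ n₀` there is a set of `n`
points in the plane in general position with at least `n * exp (c * (log n) ^ (2 / 3))` halving
lines. The previous lower bound (Toth 2001, Nivasch 2008) was `n * exp (c * sqrt (log n))`.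

The construction (dual plane): the unit arrangement is the one of Klawe, Paterson, Pippenger, Toth
and Nivasch in the form of `HLUnit.lean`; new is the composition theorem of `HLMain.lean`: the
balanced crossings along a special line form a generalised arithmetic progression, and replacing
the special lines by sheared copies of the unit arrangement makes all new crossings around one old
crossing an exact affine copy of the unit arrangement, with the new lines shared by all the old
crossings of the special line.
-/

set_option autoImplicit false

namespace Pool.Agent.Results.MP_e17eac_co.LowerBound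

open Pool.Agent.Work.MP_e17eac_co Pool.Agent.Work.MP_e17eac_co.HL

/-- The maximum number of halving lines satisfies `f(n) ≥ n exp(c (log n)^(2/3))`. -/
theorem result :
    ∃ c : ℝ, 0 < c ∧ ∃ n₀ : ℕ, ∀ n : ℕ, n₀ ≤ n → Even n →
      ∃ P : Finset (ℝ × ℝ), P.card = n ∧ GeneralPosition P ∧ (bisectors P).Finite ∧
        (n : ℝ) * Real.exp (c * Real.log n ^ (2 / 3 : ℝ)) ≤ ((bisectors P).ncard : ℝ) :=
  claimFinal (claimSparse claimUnit claimComp) claimPad claimPoints

end Pool.Agent.Results.MP_e17eac_co.LowerBound
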